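import Pool.Agent.H787.G.R_seed8.R877.RN.Stm2

/-! Project RN (MP_6ec3b3_gt): pieces FUG and DERT. -/

set_option autoImplicit false

namespace R877.RN
open Matrix Filter Topology

/-- Fuglede-Putnam for real matrices -/
theorem fuglede_putnam {ι κ : Type} [Fintype ι] [Fintype κ] [DecidableEq ι] [DecidableEq κ]
    (M : Matrix ι ι ℝ) (P : Matrix κ κ ℝ) (U : Matrix ι κ ℝ) (hM : M * Mᵀ = Mᵀ * M)
    (hP : P * Pᵀ = Pᵀ * P) (h : M * U = U * P) : Mᵀ * U = U * Pᵀ := by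
  have h' : Uᵀ * Mᵀ = Pᵀ * Uᵀ := by
    rw [← transpose_mul, h, transpose_mul]
  have e1 : (Mᵀ * U * (Uᵀ * M)).trace = (Mᵀ * M * (U * Uᵀ)).trace := by
    rw [← hM, ← Matrix.mul_assoc, Matrix.trace_mul_comm]
    simp only [Matrix.mul_assoc]
  have e2 : (Mᵀ * U * (P * Uᵀ)).trace = (Mᵀ * M * (U * Uᵀ)).trace := by
    congr 1
    calc Mᵀ * U * (P * Uᵀ) = Mᵀ * (U * P) * Uᵀ := by simp only [Matrix.mul_assoc]
      _ = Mᵀ * M * (U * Uᵀ) := by rw [← h]; simp only [Matrix.mul_assoc]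
  have e3 : (U * Pᵀ * (Uᵀ * M)).trace = (Mᵀ * M * (U * Uᵀ)).trace := by
    rw [Matrix.trace_mul_comm (Mᵀ * M) (U * Uᵀ)]
    congr 1
    calc U * Pᵀ * (Uᵀ * M) = U * (Pᵀ * Uᵀ) * M := by simp only [Matrix.mul_assoc]
      _ = U * Uᵀ * (Mᵀ * M) := by rw [← h']; simp only [Matrix.mul_assoc]
  have e4 : (U * Pᵀ * (P * Uᵀ)).trace = (Mᵀ * M * (U * Uᵀ)).trace := by
    have h5 : U * Pᵀ * (P * Uᵀ) = (M * U) * (Uᵀ * Mᵀ) := by
      calc U * Pᵀ * (P * Uᵀ) = U * (Pᵀ * P) * Uᵀ := by simp only [Matrix.mul_assoc]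
        _ = U * (P * Pᵀ) * Uᵀ := by rw [hP]
        _ = (U * P) * (Pᵀ * Uᵀ) := by simp only [Matrix.mul_assoc]
        _ = (M * U) * (Uᵀ * Mᵀ) := by rw [← h, ← h']
    have h6 : (M * U) * (Uᵀ * Mᵀ) = M * (U * Uᵀ * Mᵀ) := by simp only [Matrix.mul_assoc]
    rw [h5, h6, Matrix.trace_mul_comm, Matrix.mul_assoc, Matrix.trace_mul_comm]
  have hz : ((Mᵀ * U - U * Pᵀ) * (Mᵀ * U - U * Pᵀ)ᵀ).trace = 0 := by
    rw [transpose_sub, transpose_mul, transpose_mul, transpose_transpose, transpose_transpose,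
      Matrix.sub_mul, Matrix.mul_sub, Matrix.mul_sub, Matrix.trace_sub, Matrix.trace_sub,
      Matrix.trace_sub, e1, e2, e3, e4]
    ring
  have h7 : Mᵀ * U - U * Pᵀ = 0 := by
    rw [← Matrix.trace_mul_conjTranspose_self_eq_zero_iff,
      Matrix.conjTranspose_eq_transpose_of_trivial]
    exact hz
  exact sub_eq_zero.1 h7

theorem p_FUG : P_FUG := by
  intro n M X hM hX
  exact (fuglede_putnam M M X hM hM hX.symm).symm

open scoped Kronecker in
theorem p_DERT : P_DERT := by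
  intro n M μ hM hD
  set U : Matrix (Fin n) (Fin n × Fin n) ℝ := fun k ij => μ ij.1 ij.2 k with hU
  have key : ∀ A : Mat n, IsDer A μ ↔ A * U = U * (A ⊗ₖ (1 : Mat n) + (1 : Mat n) ⊗ₖ A) := by
    intro A
    have e1 : ∀ k i j, (A * U) k (i, j) = ∑ r, A k r * μ i j r := fun k i j => by
      rw [Matrix.mul_apply]
    have e2 : ∀ k i j, (U * (A ⊗ₖ (1 : Mat n) + (1 : Mat n) ⊗ₖ A)) k (i, j) =
        ∑ p, A p i * μ p j k + ∑ q, A q j * μ i q k := by
      intro k i j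
      rw [Matrix.mul_apply, Fintype.sum_prod_type]
      have e3 : ∀ p q, U k (p, q) * (A ⊗ₖ (1 : Mat n) + (1 : Mat n) ⊗ₖ A) (p, q) (i, j) =
          (if q = j then A p i * μ p q k else 0) + (if p = i then A q j * μ p q k else 0) := by
        intro p q
        simp only [hU, Matrix.add_apply, Matrix.kroneckerMap_apply, Matrix.one_apply]
        split_ifs <;> ring
      simp only [e3, Finset.sum_add_distrib]
      congr 1
      · apply Finset.sum_congr rfl
        intro p _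
        rw [Finset.sum_ite_eq' Finset.univ j, if_pos (Finset.mem_univ _)]
      · rw [Finset.sum_comm]
        apply Finset.sum_congr rfl
        intro q _
        rw [Finset.sum_ite_eq' Finset.univ i, if_pos (Finset.mem_univ _)]
    constructor
    · intro h
      ext k ⟨i, j⟩
      rw [e1, e2]
      exact h i j k
    · intro h i j k
      rw [← e1, ← e2, h]
  rw [key] at hD ⊢
  have ht : (M ⊗ₖ (1 : Mat n) + (1 : Mat n) ⊗ₖ M)ᵀ = Mᵀ ⊗ₖ (1 : Mat n) + (1 : Mat n) ⊗ₖ Mᵀ := by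
    ext ⟨p, q⟩ ⟨i, j⟩
    simp only [Matrix.transpose_apply, Matrix.add_apply, Matrix.kroneckerMap_apply,
      Matrix.one_apply]
    congr 1
    · congr 1
      simp only [eq_comm]
    · congr 1
      simp only [eq_comm]
  rw [← ht]
  apply fuglede_putnam M _ U hM _ hD
  rw [ht, Matrix.add_mul, Matrix.mul_add, Matrix.mul_add, Matrix.add_mul, Matrix.mul_add,
    Matrix.mul_add, ← Matrix.mul_kronecker_mul, ← Matrix.mul_kronecker_mul,
    ← Matrix.mul_kronecker_mul, ← Matrix.mul_kronecker_mul, ← Matrix.mul_kronecker_mul,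
    ← Matrix.mul_kronecker_mul, ← Matrix.mul_kronecker_mul, ← Matrix.mul_kronecker_mul, hM]
  simp only [Matrix.mul_one, Matrix.one_mul]
  abel

end R877.RN
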