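import Pool.Agent.H787.G.R_seed8.R877.RN.Stm2

/-! Project RN (MP_6ec3b3_gt): piece JC. -/

set_option autoImplicit false

namespace R877.RN
open Matrix Filter Topology

namespace JCAux

section comp

variable {V W : Type} [AddCommGroup V] [Module ℝ V] [AddCommGroup W] [Module ℝ W]

/-- post-composition -/
def LC (B : Module.End ℝ W) : Module.End ℝ (V →ₗ[ℝ] W) where
  toFun ψ := B ∘ₗ ψ
  map_add' _ _ := LinearMap.comp_add _ _ _
  map_smul' _ _ := LinearMap.comp_smul _ _ _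

/-- pre-composition -/
def RC (A : Module.End ℝ V) : Module.End ℝ (V →ₗ[ℝ] W) where
  toFun ψ := ψ ∘ₗ A
  map_add' _ _ := LinearMap.add_comp _ _ _
  map_smul' _ _ := LinearMap.smul_comp _ _ _

lemma LC_apply (B : Module.End ℝ W) (ψ : V →ₗ[ℝ] W) (v : V) : LC B ψ v = B (ψ v) := rfl

lemma RC_apply (A : Module.End ℝ V) (ψ : V →ₗ[ℝ] W) (v : V) : RC A ψ v = ψ (A v) := rfl

lemma LC_pow (B : Module.End ℝ W) (k : ℕ) :
    (LC B : Module.End ℝ (V →ₗ[ℝ] W)) ^ k = LC (B ^ k) := by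
  induction k with
  | zero => ext ψ v; rfl
  | succ k ih =>
    rw [pow_succ, pow_succ, ih]
    ext ψ v
    rfl

lemma RC_pow (A : Module.End ℝ V) (k : ℕ) :
    (RC A : Module.End ℝ (V →ₗ[ℝ] W)) ^ k = RC (A ^ k) := by
  induction k with
  | zero => ext ψ v; rfl
  | succ k ih =>
    rw [pow_succ', pow_succ, ih]
    ext ψ v
    rfl

lemma LC_aeval (B : Module.End ℝ W) (p : Polynomial ℝ) :
    Polynomial.aeval (LC B : Module.End ℝ (V →ₗ[ℝ] W)) p = LC (Polynomial.aeval B p) := by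
  induction p using Polynomial.induction_on' with
  | add p q hp hq =>
    rw [map_add, map_add, hp, hq]
    ext ψ v
    rfl
  | monomial n a =>
    rw [Polynomial.aeval_monomial, Polynomial.aeval_monomial, LC_pow]
    ext ψ v
    rfl

lemma RC_aeval (A : Module.End ℝ V) (p : Polynomial ℝ) :
    Polynomial.aeval (RC A : Module.End ℝ (V →ₗ[ℝ] W)) p = RC (Polynomial.aeval A p) := by
  induction p using Polynomial.induction_on' with
  | add p q hp hq =>
    rw [map_add, map_add, hp, hq]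
    ext ψ v
    simp [RC_apply]
  | monomial n a =>
    rw [Polynomial.aeval_monomial, Polynomial.aeval_monomial, RC_pow]
    ext ψ v
    simp [RC_apply, Module.algebraMap_end_apply]

variable [FiniteDimensional ℝ V] [FiniteDimensional ℝ W]

lemma LC_ss {B : Module.End ℝ W} (h : B.IsSemisimple) :
    (LC B : Module.End ℝ (V →ₗ[ℝ] W)).IsSemisimple := by
  apply Module.End.isSemisimple_of_squarefree_aeval_eq_zero h.minpoly_squarefree
  rw [LC_aeval, minpoly.aeval]
  ext ψ v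
  rfl

lemma RC_ss {A : Module.End ℝ V} (h : A.IsSemisimple) :
    (RC A : Module.End ℝ (V →ₗ[ℝ] W)).IsSemisimple := by
  apply Module.End.isSemisimple_of_squarefree_aeval_eq_zero h.minpoly_squarefree
  rw [RC_aeval, minpoly.aeval]
  ext ψ v
  simp [RC_apply]

omit [FiniteDimensional ℝ V] [FiniteDimensional ℝ W] in
lemma LC_nil {B : Module.End ℝ W} (h : IsNilpotent B) :
    IsNilpotent (LC B : Module.End ℝ (V →ₗ[ℝ] W)) := by
  obtain ⟨k, hk⟩ := h
  refine ⟨k, ?_⟩
  rw [LC_pow, hk]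
  ext ψ v
  rfl

omit [FiniteDimensional ℝ V] [FiniteDimensional ℝ W] in
lemma RC_nil {A : Module.End ℝ V} (h : IsNilpotent A) :
    IsNilpotent (RC A : Module.End ℝ (V →ₗ[ℝ] W)) := by
  obtain ⟨k, hk⟩ := h
  refine ⟨k, ?_⟩
  rw [RC_pow, hk]
  ext ψ v
  simp [RC_apply]

omit [FiniteDimensional ℝ V] [FiniteDimensional ℝ W] in
lemma LC_RC (B : Module.End ℝ W) (A : Module.End ℝ V) :
    Commute (LC B : Module.End ℝ (V →ₗ[ℝ] W)) (RC A) := by
  show LC B * RC A = RC A * LC B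
  ext ψ v
  rfl

lemma diff_props {A S : Module.End ℝ V} {B T : Module.End ℝ W} (hS : S.IsSemisimple)
    (hT : T.IsSemisimple) (hA : IsNilpotent (A - S)) (hB : IsNilpotent (B - T))
    (hAS : Commute A S) (hBT : Commute B T) :
    (LC T - RC S : Module.End ℝ (V →ₗ[ℝ] W)).IsSemisimple ∧
    IsNilpotent ((LC B - RC A) - (LC T - RC S) : Module.End ℝ (V →ₗ[ℝ] W)) ∧
    Commute (LC B - RC A : Module.End ℝ (V →ₗ[ℝ] W)) (LC T - RC S) := by
  refine ⟨(LC_ss hT).sub_of_commute (LC_RC T S) (RC_ss hS), ?_, ?_⟩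
  · have hfg : ((LC B - RC A) - (LC T - RC S) : Module.End ℝ (V →ₗ[ℝ] W)) =
        LC (B - T) - RC (A - S) := by
      ext ψ v
      simp only [LinearMap.sub_apply, LC_apply, RC_apply, map_sub]
      abel
    rw [hfg]
    exact (LC_RC _ _).isNilpotent_sub (LC_nil hB) (RC_nil hA)
  · have c1 : Commute (LC B : Module.End ℝ (V →ₗ[ℝ] W)) (LC T) := by
      show LC B * LC T = LC T * LC B
      ext ψ v
      show (B * T) (ψ v) = (T * B) (ψ v)
      rw [hBT.eq]
    have c2 : Commute (RC A : Module.End ℝ (V →ₗ[ℝ] W)) (RC S) := by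
      show RC A * RC S = RC S * RC A
      ext ψ v
      show ψ ((S * A) v) = ψ ((A * S) v)
      rw [hAS.eq]
    exact ((c1.sub_right (LC_RC B S)).sub_left ((LC_RC T A).symm.sub_right c2))

lemma key {A S : Module.End ℝ V} {B T : Module.End ℝ W} (hS : S.IsSemisimple)
    (hT : T.IsSemisimple) (hA : IsNilpotent (A - S)) (hB : IsNilpotent (B - T))
    (hAS : Commute A S) (hBT : Commute B T) (φ : V →ₗ[ℝ] W) (k : ℕ)
    (h : ((LC B - RC A : Module.End ℝ (V →ₗ[ℝ] W)) ^ k) φ = 0) :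
    ∀ v, T (φ v) = φ (S v) := by
  obtain ⟨p1, p2, p3⟩ := diff_props hS hT hA hB hAS hBT
  have hm : φ ∈ (LC B - RC A : Module.End ℝ (V →ₗ[ℝ] W)).genEigenspace 0 (k : ℕ) := by
    rw [Module.End.mem_genEigenspace_nat, LinearMap.mem_ker, zero_smul, sub_zero]
    exact h
  have h1 := Module.End.apply_eq_of_mem_of_comm_of_isFinitelySemisimple_of_isNil hm p3
    p1.isFinitelySemisimple p2
  intro v
  have h2 := LinearMap.congr_fun h1 v
  have h3 : T (φ v) - φ (S v) = 0 := by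
    rw [zero_smul] at h2
    exact h2
  exact sub_eq_zero.1 h3

end comp

section lie

variable {g : Type} [LieRing g] [LieAlgebra ℝ g]

lemma step (n : LieIdeal ℝ g) (x y : g) :
    (LC (LieModule.toEnd ℝ g n x) - RC (LieModule.toEnd ℝ g n x) :
      Module.End ℝ (n →ₗ[ℝ] n)) (LieModule.toEnd ℝ g n y) = LieModule.toEnd ℝ g n ⁅x, y⁆ := by
  ext v
  show ((⁅x, ⁅y, v⁆⁆ - ⁅y, ⁅x, v⁆⁆ : n) : g) = ((⁅⁅x, y⁆, v⁆ : n) : g)
  rw [lie_lie]

lemma steps (n : LieIdeal ℝ g) (h : LieSubalgebra ℝ g) (x y : h) (k : ℕ) :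
    ((LC (LieModule.toEnd ℝ g n (x : g)) - RC (LieModule.toEnd ℝ g n (x : g)) :
      Module.End ℝ (n →ₗ[ℝ] n)) ^ k) (LieModule.toEnd ℝ g n (y : g)) =
      LieModule.toEnd ℝ g n ((((LieAlgebra.ad ℝ h x) ^ k) y : h) : g) := by
  induction k with
  | zero => rfl
  | succ k ih =>
    rw [pow_succ', Module.End.mul_apply, ih, step, pow_succ', Module.End.mul_apply]
    rfl

end lie

end JCAux

open JCAux in
theorem p_JC : P_JC := by
  intro g _ _ _ n h hh m z hz
  choose N hNa S hSa hNn hSs hA using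
    fun i => (LieModule.toEnd ℝ g n (z i)).exists_isNilpotent_isSemisimple
  have hAS : ∀ i, Commute (LieModule.toEnd ℝ g n (z i)) (S i) := fun i =>
    Algebra.commute_of_mem_adjoin_self (hSa i)
  have hnil : ∀ i, IsNilpotent (LieModule.toEnd ℝ g n (z i) - S i) := by
    intro i
    have e : LieModule.toEnd ℝ g n (z i) - S i = N i := by
      rw [sub_eq_iff_eq_add]
      exact hA i
    rw [e]
    exact hNn i
  have hSA : ∀ i j, Commute (S i) (LieModule.toEnd ℝ g n (z j)) := by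
    intro i j
    obtain ⟨k, hk⟩ := LieAlgebra.nilpotent_ad_of_nilpotent_algebra ℝ h
    have h1 := key (hSs i) (hSs i) (hnil i) (hnil i) (hAS i) (hAS i)
      (LieModule.toEnd ℝ g n (z j)) k (by
        have h2 := steps n h ⟨z i, hz i⟩ ⟨z j, hz j⟩ k
        rw [hk] at h2
        rw [h2]
        simp)
    show S i * LieModule.toEnd ℝ g n (z j) = LieModule.toEnd ℝ g n (z j) * S i
    ext v
    exact congrArg Subtype.val (h1 v)
  refine ⟨S, hSs, hnil, ?_, hSA, ?_⟩
  · intro i j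
    exact Algebra.commute_of_mem_adjoin_singleton_of_commute (hSa j) (hSA i j)
  · intro i u v
    obtain ⟨p1, p2, p3⟩ := diff_props (hSs i) (hSs i) (hnil i) (hnil i) (hAS i) (hAS i)
    have h1 := key (V := n) (W := n →ₗ[ℝ] n) (hSs i) p1 (hnil i) p2 (hAS i) p3
      ((LieModule.toEnd ℝ n n : n →ₗ[ℝ] Module.End ℝ n)) 1 (by
        rw [pow_one]
        ext a b
        show ((⁅z i, ⁅a, b⁆⁆ - ⁅a, ⁅z i, b⁆⁆ - ⁅(⁅z i, a⁆ : n), b⁆ : n) : g) = 0
        simp only [LieSubmodule.coe_sub, LieSubmodule.coe_bracket, LieSubmodule.coe_bracket,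
          LieIdeal.coe_bracket_of_module]
        rw [lie_lie]
        simp) u
    have h2 := LinearMap.congr_fun h1 v
    have h3 : S i ⁅u, v⁆ - ⁅u, S i v⁆ = ⁅S i u, v⁆ := h2
    rw [← h3]
    abel

end R877.RN
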